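import Pool.Agent.Helper86.AN.Defs

set_option autoImplicit false

/-!
# MP_4042d8_co (Ando): statements of the modules
-/

namespace Pool.Agent.Helper86.AN

open Finset

/-- contraction of `S` -/
def ST_CON : Prop := ∀ (V : Type) [Fintype V] [DecidableEq V] (A S : Finset V) (m w : V → V),
  S ⊆ A → InvOn A m → InvOn S w →
  ∃ m' : V → V, InvOn (A \ S) m' ∧ ∀ c : V → Bool, Bi (A \ S) m' c →
    ∃ c' : V → Bool, (∀ v ∈ A \ S, c' v = c v) ∧ Bi A m c' ∧ Bi S w c'

/-- union of two balanced parts -/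
def ST_UNI : Prop := ∀ (V : Type) [Fintype V] [DecidableEq V] (s : Equiv.Perm V) (A S : Finset V)
  (c c' : V → Bool), S ⊆ A → Sinv s A → Sinv s S → BalOn s S c → BalOn s (A \ S) c' →
  (∀ v ∈ A \ S, c v = c' v) → BalOn s A c

/-- reduction principle -/
def ST_RED : Prop := ∀ (V : Type) [Fintype V] [DecidableEq V] (s : Equiv.Perm V) (A S : Finset V)
  (m w : V → V), S ⊆ A → Sinv s A → Sinv s S → InvOn A m → InvOn S w →
  (∀ c : V → Bool, Bi S w c → BalOn s S c) →
  (∀ m' : V → V, InvOn (A \ S) m' → Good s (A \ S) m') → Good s A m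

/-- reduction principle with a free matching edge `u, m u` inside `S` -/
def ST_REDF : Prop := ∀ (V : Type) [Fintype V] [DecidableEq V] (s : Equiv.Perm V) (A S : Finset V)
  (m w : V → V) (u : V), S ⊆ A → Sinv s A → Sinv s S → InvOn A m → u ∈ S → m u ∈ S →
  InvOn ((S.erase u).erase (m u)) w →
  (∀ c : V → Bool, Bi ((S.erase u).erase (m u)) w c →
    ∃ c' : V → Bool, (∀ v ∈ (S.erase u).erase (m u), c' v = c v) ∧ c' (m u) = !(c' u) ∧
      BalOn s S c') →
  (∀ m' : V → V, InvOn (A \ S) m' → Good s (A \ S) m') → Good s A m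

/-- counting criterion -/
def ST_CRIT : Prop := ∀ (V : Type) [Fintype V] [DecidableEq V] (s : Equiv.Perm V) (A : Finset V)
  (c : V → Bool), Sinv s A → (∀ v ∈ A, ∃ i : ℕ, c ((s ^ i) v) ≠ c v) →
  (∀ k : ℕ, 1 ≤ k → cnt s A c true k = cnt s A c false k) → BalOn s A c

/-- runs of length two take care of themselves -/
def ST_P2 : Prop := ∀ (V : Type) [Fintype V] [DecidableEq V] (s : Equiv.Perm V) (A : Finset V)
  (c : V → Bool), Sinv s A →
  (A.filter (fun v => c v = true)).card = (A.filter (fun v => c v = false)).card →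
  cnt s A c true 2 = cnt s A c false 2

/-- evaluation by inner vertices -/
def ST_EV : Prop := ∀ (V : Type) [Fintype V] [DecidableEq V] (s : Equiv.Perm V) (A : Finset V)
  (m : V → V) (c : V → Bool), Sinv s A → Per3 s A → InvOn A m → Bi A m c →
  ((inn s A c true = ∅ ∧ inn s A c false = ∅) ∨
   (∃ a b : V, inn s A c true = {a} ∧ inn s A c false = {b}) ∨
   (∃ a b : V, inn s A c true = {a, s a} ∧ inn s A c false = {b, s b})) → BalOn s A c

/-- tiled cycles are balanced -/
def ST_TBAL : Prop := ∀ (V : Type) [Fintype V] [DecidableEq V] (s : Equiv.Perm V) (S : Finset V)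
  (w : V → V) (c : V → Bool), Sinv s S → Per3 s S → InvOn S w →
  (∀ v ∈ S, w v = s v ∨ w v = s.symm v) → Bi S w c → BalOn s S c

/-- tilings of even cycles, and of odd cycles without one vertex -/
def ST_TIL : Prop := ∀ (V : Type) [Fintype V] [DecidableEq V] (s : Equiv.Perm V) (a : V),
  (Even (orb s a).card → ∃ w : V → V, InvOn (orb s a) w ∧
    ∀ v ∈ orb s a, w v = s v ∨ w v = s.symm v) ∧
  (Odd (orb s a).card → ∃ w : V → V, InvOn ((orb s a).erase a) w ∧
    ∀ v ∈ (orb s a).erase a, w v = s v ∨ w v = s.symm v)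

/-- two cycles of equal length -/
def ST_EQ : Prop := ∀ (V : Type) [Fintype V] [DecidableEq V] (s : Equiv.Perm V) (a b : V),
  ¬ s.SameCycle a b → (orb s a).card = (orb s b).card →
  ∃ w : V → V, InvOn (orb s a ∪ orb s b) w ∧
    ∀ c : V → Bool, Bi (orb s a ∪ orb s b) w c → BalOn s (orb s a ∪ orb s b) c

/-- a triangle and an odd cycle joined by a matching edge -/
def ST_TRI : Prop := ∀ (V : Type) [Fintype V] [DecidableEq V] (s : Equiv.Perm V) (A : Finset V)
  (m : V → V) (a : V), Sinv s A → Per3 s A → InvOn A m → a ∈ A → ¬ s.SameCycle a (m a) →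
  (orb s a).card = 3 → Odd (orb s (m a)).card →
  (∀ m' : V → V, InvOn (A \ (orb s a ∪ orb s (m a))) m' →
    Good s (A \ (orb s a ∪ orb s (m a))) m') → Good s A m

/-- existence of kink data -/
def ST_KEX : Prop := ∀ (V : Type) [Fintype V] [DecidableEq V] (s : Equiv.Perm V) (m : V → V)
  (a b : V), ¬ s.SameCycle a b → Odd (orb s a).card → Odd (orb s b).card →
  Per3 s (orb s a ∪ orb s b) → InvOn (orb s a ∪ orb s b) m →
  ∃ (w : V → V) (u : Bool → V), KD s (orb s a ∪ orb s b) m w u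

/-- facts on kink data -/
def ST_RF : Prop := ∀ (V : Type) [Fintype V] [DecidableEq V] (s : Equiv.Perm V) (A : Finset V)
  (m w : V → V) (u : Bool → V), KD s A m w u →
  InvOn (Ap A u) m ∧
  (∀ v, v ∈ Ap A u ↔ v ∈ A ∧ ∀ i, v ≠ u i) ∧
  (∀ i, s (u i) ∈ Ap A u ∧ s.symm (u i) ∈ Ap A u ∧ s (u i) ≠ s.symm (u i)) ∧
  (∀ i, u i ≠ u (!i)) ∧
  (∀ v ∈ Ap A u, rr s w v ∈ A ∧ rr s w v ≠ v ∧ rr s w v ≠ w v) ∧
  (∀ v ∈ Ap A u, ∀ i, rr s w v = u i ↔ v = s (u i) ∨ v = s.symm (u i)) ∧
  (∀ v ∈ Ap A u, rr s w v ∈ Ap A u → rr s w (rr s w v) = v) ∧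
  (∀ v ∈ Ap A u, ∀ (c : V → Bool) (b : Bool),
    v ∈ inn s A c b ↔ c v = b ∧ c (w v) = b ∧ c (rr s w v) = b) ∧
  (∀ i, ∀ (c : V → Bool) (b : Bool),
    u i ∈ inn s A c b ↔ c (u i) = b ∧ c (s (u i)) = b ∧ c (s.symm (u i)) = b)

/-- plain colourings -/
def ST_PLAIN : Prop := ∀ (V : Type) [Fintype V] [DecidableEq V] (s : Equiv.Perm V) (A : Finset V)
  (m w : V → V) (u : Bool → V) (c : V → Bool), KD s A m w u → Bi A m c → Bi (Ap A u) w c →
  ((c (s (u false)) = c (u false) ∧ c (s.symm (u false)) = c (u false)) ↔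
   (c (s (u true)) = c (u true) ∧ c (s.symm (u true)) = c (u true))) → BalOn s A c

/-- existence of the component through `x` -/
def ST_ZDE : Prop := ∀ (V : Type) [Fintype V] [DecidableEq V] (s : Equiv.Perm V) (A : Finset V)
  (m w : V → V) (u : Bool → V) (x : V), KD s A m w u → x ∈ Ap A u →
  ∃ (n : ℤ) (e : ℤ → V), ZD A m w u n e ∧ e 0 = x

/-- facts on environments -/
def ST_ENVF : Prop := ∀ (V : Type) [Fintype V] [DecidableEq V] (s : Equiv.Perm V) (A : Finset V)
  (m w : V → V) (u : Bool → V) (n : ℤ) (e : ℤ → V) (c : V → Bool),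
  KD s A m w u → ZD A m w u n e → Env A m w u e c →
  (∀ k, c (e k) = true) ∧ (∀ k, c (w (e k)) = false) ∧ (∀ k l, e k ≠ w (e l)) ∧
  (∀ k l, w (e k) = w (e l) ↔ n ∣ k - l) ∧
  (∃ c' : V → Bool, Env A m w u e c' ∧ (∀ v ∈ Ap A u, InZ w e v → c' v = c v) ∧
    (∀ v ∈ Ap A u, ¬ InZ w e v → c' v = !(c v)))

/-- the stuck situation: all four neighbours of the kinks lie on one component, same colour -/
def ST_STK : Prop := ∀ (V : Type) [Fintype V] [DecidableEq V] (s : Equiv.Perm V) (A : Finset V)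
  (m w : V → V) (u : Bool → V), KD s A m w u → ¬ Good s A m →
  ∃ (n : ℤ) (e : ℤ → V) (c : V → Bool), ZD A m w u n e ∧ Env A m w u e c ∧
    ∀ i, (∃ k, e k = s (u i)) ∧ (∃ l, e l = s.symm (u i))

/-- sorting the four special positions -/
def ST_SRT : Prop := ∀ (V : Type) [Fintype V] [DecidableEq V] (s : Equiv.Perm V) (A : Finset V)
  (m w : V → V) (u : Bool → V) (n : ℤ) (e : ℤ → V), KD s A m w u → ZD A m w u n e →
  (∀ i, (∃ k, e k = s (u i)) ∧ (∃ l, e l = s.symm (u i))) →
  ∃ (i : Bool) (a b c d : ℤ), a < b ∧ b < c ∧ c < d ∧ d < a + n ∧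
    ((Sp s u i (e a) (e c) ∧ Sp s u (!i) (e b) (e d)) ∨
     (Sp s u i (e a) (e b) ∧ Sp s u (!i) (e c) (e d)))

/-- facts on the arc colourings -/
def ST_COL : Prop := ∀ (V : Type) [Fintype V] [DecidableEq V] (s : Equiv.Perm V) (A : Finset V)
  (m w : V → V) (u : Bool → V) (n : ℤ) (e : ℤ → V) (c : V → Bool) (i : Bool) (a j : ℤ),
  KD s A m w u → ZD A m w u n e → Env A m w u e c → a < j → j < a + n →
  Bi A m (col w u e i c a j) ∧
  (∀ t, a < t → t ≤ a + n → (col w u e i c a j (e t) = true ↔ j < t)) ∧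
  (∀ t, a ≤ t → t < a + n → (col w u e i c a j (w (e t)) = true ↔ t < j)) ∧
  (∀ v ∈ Ap A u, v ≠ e a → v ≠ w (e a) → v ≠ e j → v ≠ w (e j) →
    col w u e i c a j (w v) = !(col w u e i c a j v)) ∧
  (∀ v ∈ Ap A u, ¬ InZ w e v → col w u e i c a j v = c v) ∧
  (∀ v ∈ Ap A u, col w u e (!i) c a j v = col w u e i c a j v) ∧
  col w u e i c a j (u i) = false ∧ col w u e i c a j (u (!i)) = true

/-- inner vertices of the arc colourings -/
def ST_INN : Prop := ∀ (V : Type) [Fintype V] [DecidableEq V] (s : Equiv.Perm V) (A : Finset V)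
  (m w : V → V) (u : Bool → V) (n : ℤ) (e : ℤ → V) (c : V → Bool) (i : Bool) (a j : ℤ),
  KD s A m w u → ZD A m w u n e → Env A m w u e c → a < j → j < a + n → ∀ v : V,
  (v ∈ inn s A (col w u e i c a j) true ↔
    ((v = e a ∨ v = w (e a)) ∧ col w u e i c a j (rr s w v) = true) ∨
    (v = u (!i) ∧ col w u e i c a j (s v) = true ∧ col w u e i c a j (s.symm v) = true)) ∧
  (v ∈ inn s A (col w u e i c a j) false ↔
    ((v = e j ∨ v = w (e j)) ∧ col w u e i c a j (rr s w v) = false) ∨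
    (v = u i ∧ col w u e i c a j (s v) = false ∧ col w u e i c a j (s.symm v) = false))

/-- special tiles of different kinks, unequal outer colours -/
def ST_L2 : Prop := ∀ (V : Type) [Fintype V] [DecidableEq V] (s : Equiv.Perm V) (A : Finset V)
  (m w : V → V) (u : Bool → V) (n : ℤ) (e : ℤ → V) (c : V → Bool) (i : Bool) (a b a' b' : ℤ),
  KD s A m w u → ZD A m w u n e → Env A m w u e c → a < b → b < a + n →
  Sp s u i (e a) (e a') → Sp s u (!i) (e b) (e b') →
  col w u e i c a b (rr s w (w (e a))) ≠ col w u e i c a b (rr s w (w (e b))) → Good s A m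

/-- special tiles of different kinks, both outer colours `false` -/
def ST_L2Q : Prop := ∀ (V : Type) [Fintype V] [DecidableEq V] (s : Equiv.Perm V) (A : Finset V)
  (m w : V → V) (u : Bool → V) (n : ℤ) (e : ℤ → V) (c : V → Bool) (i : Bool) (a b a' b' : ℤ),
  KD s A m w u → ZD A m w u n e → Env A m w u e c → a < b → b < a + n →
  Sp s u i (e a) (e a') → Sp s u (!i) (e b) (e b') →
  col w u e i c a b (e a') = true → col w u e i c a b (e b') = true →
  col w u e i c a b (rr s w (w (e a))) = false → col w u e i c a b (rr s w (w (e b))) = false →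
  Good s A m

/-- special tiles of the same kink -/
def ST_LC : Prop := ∀ (V : Type) [Fintype V] [DecidableEq V] (s : Equiv.Perm V) (A : Finset V)
  (m w : V → V) (u : Bool → V) (n : ℤ) (e : ℤ → V) (c : V → Bool) (i : Bool) (a b c₁ c₂ : ℤ),
  KD s A m w u → ZD A m w u n e → Env A m w u e c → a < b → b < a + n →
  Sp s u i (e a) (e b) → Sp s u (!i) (e c₁) (e c₂) →
  col w u e i c a b (e c₁) = true → col w u e i c a b (e c₂) = true →
  col w u e i c a b (rr s w (w (e a))) = false → Good s A m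

/-- one special tile and one generic tile -/
def ST_LX : Prop := ∀ (V : Type) [Fintype V] [DecidableEq V] (s : Equiv.Perm V) (A : Finset V)
  (m w : V → V) (u : Bool → V) (n : ℤ) (e : ℤ → V) (c : V → Bool) (i : Bool)
  (a j a' c₁ c₂ : ℤ),
  KD s A m w u → ZD A m w u n e → Env A m w u e c → a < j → j < a + n →
  Sp s u i (e a) (e a') → Sp s u (!i) (e c₁) (e c₂) →
  (∀ i', e j ≠ s (u i') ∧ e j ≠ s.symm (u i')) →
  col w u e i c a j (e a') = false → col w u e i c a j (e c₁) = true →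
  col w u e i c a j (e c₂) = false →
  col w u e i c a j (rr s w (w (e a))) = false → col w u e i c a j (rr s w (e j)) = true →
  Good s A m

/-- position of a vertex which is `true` in two consecutive arcs for all environments -/
def ST_POS : Prop := ∀ (V : Type) [Fintype V] [DecidableEq V] (s : Equiv.Perm V) (A : Finset V)
  (m w : V → V) (u : Bool → V) (n : ℤ) (e : ℤ → V) (c₀ : V → Bool) (i i' : Bool) (o p q : ℤ)
  (z : V), KD s A m w u → ZD A m w u n e → Env A m w u e c₀ → z ∈ Ap A u →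
  o < p → p < q → q < o + n →
  (∀ c, Env A m w u e c → col w u e i c o p z = true) →
  (∀ c, Env A m w u e c → col w u e i' c p q z = true) →
  ∃ t, q < t ∧ t ≤ o + n ∧ z = e t

/-- alternating pattern -/
def ST_ALT : Prop := ∀ (V : Type) [Fintype V] [DecidableEq V] (s : Equiv.Perm V) (A : Finset V)
  (m w : V → V) (u : Bool → V) (n : ℤ) (e : ℤ → V) (c₀ : V → Bool) (i : Bool) (a b c d : ℤ),
  KD s A m w u → ZD A m w u n e → Env A m w u e c₀ → a < b → b < c → c < d → d < a + n →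
  Sp s u i (e a) (e c) → Sp s u (!i) (e b) (e d) → Good s A m

/-- adjacent pattern, first part: either a balanced colouring or the outer neighbour of the
`false` vertex of tile `a` is a `true` vertex between `b` and `c` -/
def ST_ADJ1 : Prop := ∀ (V : Type) [Fintype V] [DecidableEq V] (s : Equiv.Perm V) (A : Finset V)
  (m w : V → V) (u : Bool → V) (n : ℤ) (e : ℤ → V) (c₀ : V → Bool) (i : Bool) (a b c d : ℤ),
  KD s A m w u → ZD A m w u n e → Env A m w u e c₀ → a < b → b < c → c < d → d < a + n →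
  Sp s u i (e a) (e b) → Sp s u (!i) (e c) (e d) →
  Good s A m ∨ ∃ t, b < t ∧ t < c ∧ rr s w (w (e a)) = e t

/-- adjacent pattern -/
def ST_ADJ : Prop := ∀ (V : Type) [Fintype V] [DecidableEq V] (s : Equiv.Perm V) (A : Finset V)
  (m w : V → V) (u : Bool → V) (n : ℤ) (e : ℤ → V) (c₀ : V → Bool) (i : Bool) (a b c d : ℤ),
  KD s A m w u → ZD A m w u n e → Env A m w u e c₀ → a < b → b < c → c < d → d < a + n →
  Sp s u i (e a) (e b) → Sp s u (!i) (e c) (e d) → Good s A m

/-- two odd cycles -/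
def ST_K1 : Prop := ∀ (V : Type) [Fintype V] [DecidableEq V] (s : Equiv.Perm V) (m : V → V)
  (a b : V), ¬ s.SameCycle a b → Odd (orb s a).card → Odd (orb s b).card →
  Per3 s (orb s a ∪ orb s b) → InvOn (orb s a ∪ orb s b) m → Good s (orb s a ∪ orb s b) m

/-- main theorem on permutations -/
def ST_MAIN : Prop := ∀ (V : Type) [Fintype V] [DecidableEq V] (s : Equiv.Perm V) (A : Finset V)
  (m : V → V), Sinv s A → Per3 s A → InvOn A m → (Lam s A).card ≤ 3 → Good s A m

/-- orientation of a 2-regular graph -/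
def ST_ORI : Prop := ∀ (V : Type) [Fintype V] [DecidableEq V] (F : SimpleGraph V)
  [DecidableRel F.Adj], F.IsRegularOfDegree 2 →
  ∃ s : Equiv.Perm V, (∀ v w, F.Adj v w ↔ (s v = w ∨ s w = v)) ∧
    (∀ v w, s.SameCycle v w ↔ F.Reachable v w) ∧ (∀ v, s v ≠ v ∧ s (s v) ≠ v)

/-- from balanced colourings to isomorphic parts -/
def ST_ISO : Prop := ∀ (V : Type) [Fintype V] [DecidableEq V] (G : SimpleGraph V)
  (s : Equiv.Perm V) (m : V → V) (c : V → Bool),
  (∀ v w, G.Adj v w ↔ (s v = w ∨ s w = v ∨ m v = w)) → Bi univ m c → BalOn s univ c →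
  ∃ B : Finset V, 2 * B.card = Fintype.card V ∧
    Nonempty (SimpleGraph.Iso (G.induce (↑B : Set V)) (G.induce ((↑B : Set V)ᶜ)))

/-- final theorem -/
def ST_FIN : Prop := ∀ (V : Type) [Fintype V] [DecidableEq V] (G F : SimpleGraph V)
  [DecidableRel G.Adj] [DecidableRel F.Adj],
  G.IsRegularOfDegree 3 → F.IsRegularOfDegree 2 → F ≤ G →
  {l : ℕ | 5 ≤ l ∧ Odd l ∧
    Odd (Nat.card {K : F.ConnectedComponent // K.supp.ncard = l})}.ncard ≤ 3 →
  ∃ B : Finset V, 2 * B.card = Fintype.card V ∧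
    Nonempty (SimpleGraph.Iso (G.induce (↑B : Set V)) (G.induce ((↑B : Set V)ᶜ)))

end Pool.Agent.Helper86.AN
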