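import Pool.Agent.Helper86.AN.Stmts
import Pool.Agent.Helper47.AN.ADJ
import Pool.Agent.Helper25.AN.ADJ1
import Pool.Agent.Helper7.AN.ALT
import Pool.Agent.Helper21.AN.COL
import Pool.Agent.Helper42.AN.CONT
import Pool.Agent.Helper71.AN.CRIT
import Pool.Agent.Helper79.AN.ENVF
import Pool.Agent.Helper72.AN.EQ
import Pool.Agent.Helper30.AN.EV
import Pool.Agent.Helper78.AN.FIN
import Pool.Agent.Helper14.AN.INN
import Pool.Agent.Helper21.AN.ISO
import Pool.Agent.Helper14.AN.K1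
import Pool.Agent.Helper79.AN.KEX
import Pool.Agent.Helper72.AN.L2
import Pool.Agent.Helper97.AN.L2Q
import Pool.Agent.Helper52.AN.LC
import Pool.Agent.Helper14.AN.LX
import Pool.Agent.Helper52.AN.MAIN
import Pool.Agent.Helper63.AN.ORI
import Pool.Agent.Helper35.AN.P2
import Pool.Agent.Helper81.AN.PLAIN
import Pool.Agent.Helper21.AN.POS
import Pool.Agent.Helper42.AN.RED
import Pool.Agent.Helper78.AN.REDF
import Pool.Agent.Helper68.AN.RF
import Pool.Agent.Helper97.AN.SRT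
import Pool.Agent.Helper35.AN.STK
import Pool.Agent.Helper14.AN.TBAL
import Pool.Agent.Helper14.AN.TIL
import Pool.Agent.Helper8.AN.TRI
import Pool.Agent.Helper42.AN.UNI
import Pool.Agent.Helper78.AN.ZDE

set_option autoImplicit false

namespace Pool.Agent.Helper86.AN

theorem fin : ST_FIN := by
  have hCON : ST_CON := Pool.Agent.Helper42.AN.st_CON
  have hUNI : ST_UNI := Pool.Agent.Helper42.AN.st_UNI
  have hRED := Pool.Agent.Helper42.AN.st_RED hCON hUNI
  have hREDF := Pool.Agent.Helper78.AN.st_REDF hCON hUNI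
  have hCRIT := Pool.Agent.Helper71.AN.st_CRIT
  have hP2 := Pool.Agent.Helper35.AN.st_P2
  have hEV := Pool.Agent.Helper30.AN.st_EV hCRIT hP2
  have hTBAL := Pool.Agent.Helper14.AN.st_TBAL hEV
  have hTIL := Pool.Agent.Helper14.AN.st_TIL
  have hEQ := Pool.Agent.Helper72.AN.st_EQ
  have hTRI := Pool.Agent.Helper8.AN.st_TRI hREDF hTIL hEV
  have hKEX := Pool.Agent.Helper79.AN.st_KEX hTIL
  have hRF := Pool.Agent.Helper68.AN.st_RF
  have hPLAIN := Pool.Agent.Helper81.AN.st_PLAIN hEV hRF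
  have hZDE := Pool.Agent.Helper78.AN.st_ZDE hRF
  have hENVF := Pool.Agent.Helper79.AN.st_ENVF hRF
  have hSTK := Pool.Agent.Helper35.AN.st_STK hCON hPLAIN hZDE hENVF hRF
  have hSRT := Pool.Agent.Helper97.AN.st_SRT hRF
  have hCOL := Pool.Agent.Helper21.AN.st_COL hRF hENVF
  have hINN := Pool.Agent.Helper14.AN.st_INN hRF hCOL hENVF
  have hL2 := Pool.Agent.Helper72.AN.st_L2 hEV hRF hCOL hINN
  have hL2Q := Pool.Agent.Helper97.AN.st_L2Q hEV hRF hCOL hINN hENVF
  have hLC := Pool.Agent.Helper52.AN.st_LC hEV hRF hCOL hINN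
  have hLX := Pool.Agent.Helper14.AN.st_LX hEV hRF hCOL hINN hENVF
  have hPOS := Pool.Agent.Helper21.AN.st_POS hRF hCOL hENVF
  have hALT := Pool.Agent.Helper7.AN.st_ALT hL2 hL2Q hLX hPOS hCOL hRF hENVF
  have hADJ1 := Pool.Agent.Helper25.AN.st_ADJ1 hL2 hL2Q hLC hLX hPOS hCOL hRF hENVF
  have hADJ := Pool.Agent.Helper47.AN.st_ADJ hADJ1 hL2 hCOL
  have hK1 := Pool.Agent.Helper14.AN.st_K1 hKEX hSTK hSRT hALT hADJ
  have hMAIN := Pool.Agent.Helper52.AN.st_MAIN hRED hTBAL hTIL hEQ hTRI hK1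
  have hORI := Pool.Agent.Helper63.AN.st_ORI
  have hISO := Pool.Agent.Helper21.AN.st_ISO
  exact Pool.Agent.Helper78.AN.st_FIN hMAIN hORI hISO

end Pool.Agent.Helper86.AN
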