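import Mathlib

set_option autoImplicit false

/-!
# MP_4042d8_co (Ando): definitions

`s` is a permutation of the vertex set whose cycles are the cycles of a 2-factor, `m` the matching.
-/

namespace Pool.Agent.Helper86.AN

open Finset

/-- `m` is a fixed point free involution of the set `A`. -/
def InvOn {V : Type} (A : Finset V) (m : V → V) : Prop :=
  ∀ v ∈ A, m v ∈ A ∧ m (m v) = v ∧ m v ≠ v

/-- `A` is a union of cycles of `s`. -/
def Sinv {V : Type} (s : Equiv.Perm V) (A : Finset V) : Prop := ∀ v, s v ∈ A ↔ v ∈ A

/-- all cycles of `s` in `A` have length at least 3 -/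
def Per3 {V : Type} (s : Equiv.Perm V) (A : Finset V) : Prop := ∀ v ∈ A, s v ≠ v ∧ s (s v) ≠ v

/-- the pairs of `m` are bichromatic -/
def Bi {V : Type} (A : Finset V) (m : V → V) (c : V → Bool) : Prop := ∀ v ∈ A, c (m v) = !(c v)

/-- the two colour classes of `c` on `A` are isomorphic as digraphs with arrows `v → s v` -/
def BalOn {V : Type} (s : Equiv.Perm V) (A : Finset V) (c : V → Bool) : Prop :=
  ∃ φ : V → V, ∀ v ∈ A, φ v ∈ A ∧ φ (φ v) = v ∧ c (φ v) = !(c v) ∧
    ∀ w ∈ A, c v = c w → (s v = w ↔ s (φ v) = φ w)

/-- `A` has a balanced colouring with bichromatic `m`-pairs -/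
def Good {V : Type} (s : Equiv.Perm V) (A : Finset V) (m : V → V) : Prop :=
  ∃ c : V → Bool, Bi A m c ∧ BalOn s A c

variable {V : Type} [Fintype V] [DecidableEq V]

/-- number of `v ∈ A` with `c (s^i v) = b` for all `i < k` -/
def cnt (s : Equiv.Perm V) (A : Finset V) (c : V → Bool) (b : Bool) (k : ℕ) : ℕ :=
  (A.filter (fun v => ∀ i ∈ range k, c ((s ^ i) v) = b)).card

/-- inner vertices of the `b`-coloured runs -/
def inn (s : Equiv.Perm V) (A : Finset V) (c : V → Bool) (b : Bool) : Finset V :=
  A.filter (fun v => c v = b ∧ c (s v) = b ∧ c (s.symm v) = b)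

open Classical in
/-- the cycle of `s` through `a` -/
noncomputable def orb (s : Equiv.Perm V) (a : V) : Finset V :=
  univ.filter (fun v => s.SameCycle a v)

/-- the odd lengths at least 5 of cycles which occur an odd number of times in `A`
(for odd `l` the number of cycles of length `l` is odd iff the number of their vertices is odd) -/
noncomputable def Lam (s : Equiv.Perm V) (A : Finset V) : Finset ℕ :=
  (range (Fintype.card V + 1)).filter
    (fun l => 5 ≤ l ∧ Odd l ∧ Odd (A.filter (fun v => (orb s v).card = l)).card)

/-- `A` without the two kinks -/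
def Ap (A : Finset V) (u : Bool → V) : Finset V := (A.erase (u false)).erase (u true)

/-- the other neighbour of `v`: the neighbours of `v` are `w v` and `rr s w v` -/
def rr (s : Equiv.Perm V) (w : V → V) (v : V) : V := if w v = s v then s.symm v else s v

/-- kink data: two kinks `u false`, `u true` on different cycles, joined by `m`; the other
vertices of `A` are paired by `w` along the cycles (tiles). -/
structure KD (s : Equiv.Perm V) (A : Finset V) (m w : V → V) (u : Bool → V) : Prop where
  sinv : Sinv s A
  per : Per3 s A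
  minv : InvOn A m
  uA : ∀ i, u i ∈ A
  mu : ∀ i, m (u i) = u (!i)
  nsc : ¬ s.SameCycle (u false) (u true)
  winv : InvOn (Ap A u) w
  tile : ∀ v ∈ Ap A u, w v = s v ∨ w v = s.symm v

/-- `k` and `l` are the two neighbours of the kink `u i` -/
def Sp (s : Equiv.Perm V) (u : Bool → V) (i : Bool) (k l : V) : Prop :=
  (k = s (u i) ∧ l = s.symm (u i)) ∨ (l = s (u i) ∧ k = s.symm (u i))

/-- the component `Z` of the tiles and the matching through `e 0`, with tiles `e k, w (e k)` -/
structure ZD (A : Finset V) (m w : V → V) (u : Bool → V) (n : ℤ) (e : ℤ → V) : Prop where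
  npos : 0 < n
  eA : ∀ k, e k ∈ Ap A u
  per : ∀ k l, e k = e l ↔ n ∣ k - l
  om : ∀ k, m (w (e k)) = e (k + 1)

/-- `v` is a vertex of the component `Z` -/
def InZ (w : V → V) (e : ℤ → V) (v : V) : Prop := ∃ k, v = e k ∨ v = w (e k)

/-- environment: a colouring of `A` without the kinks, bichromatic on tiles and matching,
with `e 0` (hence all `e k`) coloured `true` -/
structure Env (A : Finset V) (m w : V → V) (u : Bool → V) (e : ℤ → V) (c : V → Bool) : Prop where
  bm : Bi (Ap A u) m c
  bw : Bi (Ap A u) w c
  e0 : c (e 0) = true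

open Classical in
/-- the colouring `c` with the matching edges `w (e t), e (t+1)`, `a ≤ t < j` flipped -/
noncomputable def arc (w : V → V) (e : ℤ → V) (c : V → Bool) (a j : ℤ) : V → Bool :=
  fun v => if (∃ t : ℤ, a ≤ t ∧ t < j ∧ (v = w (e t) ∨ v = e (t + 1))) then !(c v) else c v

/-- `arc` with the kink `u i` coloured `false` and the other kink coloured `true` -/
noncomputable def col (w : V → V) (u : Bool → V) (e : ℤ → V) (i : Bool) (c : V → Bool)
    (a j : ℤ) : V → Bool :=
  fun v => if v = u i then false else if v = u (!i) then true else arc w e c a j v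

end Pool.Agent.Helper86.AN
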